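import Pool.Agent.W197.Tile

open Filter

namespace Pool.Agent.Results.MP_21f43f_nt.LargeGapsShortIntervals

/-- multiplicity of `s` as a zero of the Riemann zeta function (order of vanishing at `s`) -/
noncomputable def zmult (s : ℂ) : ℕ := analyticOrderNatAt riemannZeta s

/-- the number of nontrivial zeros of `ζ` with ordinate in `(0, t]`, with multiplicity -/
noncomputable def NZ (t : ℝ) : ℕ :=
  ∑ᶠ s ∈ {s : ℂ | riemannZeta s = 0 ∧ 0 < s.re ∧ s.re < 1 ∧ 0 < s.im ∧ s.im ≤ t}, zmult s

/-- for `n ≥ 1`: the `n`-th positive ordinate `γ n` of a nontrivial zero of `ζ`, the ordinates being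
listed in nondecreasing order and repeated according to multiplicity -/
noncomputable def γ (n : ℕ) : ℝ := sInf {t : ℝ | n ≤ NZ t}

/-- the normalised gaps `δ_n = (γ_{n+1} log γ_{n+1} - γ_n log γ_n) / 2π` -/
noncomputable def δ (n : ℕ) : ℝ :=
  (γ (n + 1) * Real.log (γ (n + 1)) - γ n * Real.log (γ n)) / (2 * Real.pi)

/-- On the Riemann hypothesis there is `θ < 1` such that every interval `[T, T + H]` with `T` large
and `T ^ θ ≤ H ≤ T / 2` contains `≫ H log T` zeros whose normalised gap is larger than `3.57`. -/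
theorem result (RH : RiemannHypothesis) :
    ∃ θ ε T1 : ℝ, θ < 1 ∧ 0 < ε ∧
      ∀ T : ℝ, T1 ≤ T → ∀ H : ℝ, T ^ θ ≤ H → H ≤ T / 2 →
        ε * (H * Real.log T) ≤
          ({n : ℕ | 1 ≤ n ∧ T ≤ γ n ∧ γ n ≤ T + H ∧ 357 / 100 < δ n}.ncard : ℝ) := by
  have hRHs : SP.RHs := by
    intro s h1 h2 h0
    apply RH s h0
    · rintro ⟨k, hk⟩
      have := congrArg Complex.re hk
      simp at this
      have hk0 : (0 : ℝ) ≤ k := Nat.cast_nonneg k
      linarith
    · intro h; rw [h] at h2; simp at h2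
  exact W197.large_short hRHs

end Pool.Agent.Results.MP_21f43f_nt.LargeGapsShortIntervals
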