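import Pool.Agent.W197.Rig.G3

open Filter

namespace Pool.Agent.Results.MP_21f43f_nt.Rigidity

/-- multiplicity of `s` as a zero of the Riemann zeta function (order of vanishing at `s`) -/
noncomputable def zmult (s : ℂ) : ℕ := analyticOrderNatAt riemannZeta s

/-- the number of nontrivial zeros of `ζ` with ordinate in `(0, t]`, with multiplicity -/
noncomputable def NZ (t : ℝ) : ℕ :=
  ∑ᶠ s ∈ {s : ℂ | riemannZeta s = 0 ∧ 0 < s.re ∧ s.re < 1 ∧ 0 < s.im ∧ s.im ≤ t}, zmult s

/-- for `n ≥ 1`: the `n`-th positive ordinate `γ n` of a nontrivial zero of `ζ`, the ordinates being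
listed in nondecreasing order and repeated according to multiplicity -/
noncomputable def γ (n : ℕ) : ℝ := sInf {t : ℝ | n ≤ NZ t}

/-- the normalised gaps `δ_n = (γ_{n+1} log γ_{n+1} - γ_n log γ_n) / 2π` -/
noncomputable def δ (n : ℕ) : ℝ :=
  (γ (n + 1) * Real.log (γ (n + 1)) - γ n * Real.log (γ n)) / (2 * Real.pi)

/-- Rigidity of the zeros on the Riemann hypothesis: for `m ≤ log n` the sum of `m` consecutive
normalised gaps deviates from `m` by `λ ≥ C log (m + 1)` for at most
`N exp (-c λ log (λ / log (m + 1)))` of the indices `n ≤ N`, uniformly in `N`, `m` and `λ`. -/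
theorem result (RH : RiemannHypothesis) :
    ∃ c C : ℝ, 0 < c ∧ 0 < C ∧ ∀ N m : ℕ, 1 ≤ m → ∀ lam : ℝ, C * Real.log (m + 1) ≤ lam →
      ({n : ℕ | 1 ≤ n ∧ n ≤ N ∧ (m : ℝ) ≤ Real.log n ∧
          lam ≤ |∑ i ∈ Finset.range m, δ (n + i) - m|}.ncard : ℝ) ≤
        N * Real.exp (-(c * lam * Real.log (lam / Real.log (m + 1)))) := by
  have hRHs : SP.RHs := by
    intro s h1 h2 h0
    apply RH s h0
    · rintro ⟨k, hk⟩
      have := congrArg Complex.re hk
      simp at this
      have hk0 : (0 : ℝ) ≤ k := Nat.cast_nonneg k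
      linarith
    · intro h; rw [h] at h2; simp at h2
  obtain ⟨c, C, hc, hC, H⟩ := Rig.rigid hRHs _ Rig.close_log
  refine ⟨c, C, hc, by linarith, fun N m hm lam hlam => ?_⟩
  have h := H N m hm lam hlam
  have htel : ∀ n : ℕ, ∑ i ∈ Finset.range m, δ (n + i) =
      (SG.ord (n + m) * Real.log (SG.ord (n + m)) - SG.ord n * Real.log (SG.ord n)) /
        (2 * Real.pi) := by
    intro n
    have h1 := Finset.sum_range_sub (fun i => γ (n + i) * Real.log (γ (n + i))) m
    unfold δ
    rw [← Finset.sum_div]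
    congr 1
  simp_rw [htel]
  exact h

end Pool.Agent.Results.MP_21f43f_nt.Rigidity
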