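import Pool.Agent.W249.TCF.Gap

open Filter

namespace Pool.Agent.Results.MP_21f43f_nt.SmallGapProportion

/-- multiplicity of `s` as a zero of the Riemann zeta function (order of vanishing at `s`) -/
noncomputable def zmult (s : ℂ) : ℕ := analyticOrderNatAt riemannZeta s

/-- the number of nontrivial zeros of `ζ` with ordinate in `(0, t]`, with multiplicity -/
noncomputable def NZ (t : ℝ) : ℕ :=
  ∑ᶠ s ∈ {s : ℂ | riemannZeta s = 0 ∧ 0 < s.re ∧ s.re < 1 ∧ 0 < s.im ∧ s.im ≤ t}, zmult s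

/-- for `n ≥ 1`: `γ_n`, the `n`-th positive ordinate of a nontrivial zero of `ζ`, the ordinates
being listed in nondecreasing order and repeated according to multiplicity -/
noncomputable def ord (n : ℕ) : ℝ := sInf {t : ℝ | n ≤ NZ t}

/-- the normalised ordinate `(1 / 2π) γ_n log γ_n` -/
noncomputable def nord (n : ℕ) : ℝ := 1 / (2 * Real.pi) * ord n * Real.log (ord n)

/-- the normalised gap `δ_n` between the `n`-th and the `(n+1)`-st zero -/
noncomputable def gap (n : ℕ) : ℝ := nord (n + 1) - nord n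

/-- `G a = (53/60 - (79/600) π² a²)²` -/
noncomputable def G (a : ℝ) : ℝ := (53 / 60 - 79 / 600 * Real.pi ^ 2 * a ^ 2) ^ 2

/-- `D a = 2 G a - 1037/1000` -/
noncomputable def D (a : ℝ) : ℝ := 2 * G a - 1037 / 1000

/-- `K a = v / (v + D a ^ 2)` with `v = 151/1250` -/
noncomputable def K (a : ℝ) : ℝ := (151 / 1250) / (151 / 1250 + D a ^ 2)

/-- convexity of `x log x` -/
lemma conv {x y : ℝ} (hx : 0 < x) (hxy : x ≤ y) :
    (y - x) * Real.log x ≤ y * Real.log y - x * Real.log x := by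
  have h : Real.log x ≤ Real.log y := Real.log_le_log hx hxy
  have hy : 0 < y := by linarith
  nlinarith [mul_le_mul_of_nonneg_left h hy.le]

lemma gap_imp {a : ℝ} {n : ℕ} (hn : 1 ≤ n) (h : gap n ≤ a) : W249.TCF.Pn a n := by
  have e : ∀ m : ℕ, SG.ord m = ord m := fun m => rfl
  unfold W249.TCF.Pn
  rw [e, e]
  have hpos : 0 < ord n := SG.ord_pos hn
  have hle : ord n ≤ ord (n + 1) := SG.ord_mono hn (by omega)
  unfold gap nord at h
  have h1 := conv hpos hle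
  have hpi := Real.pi_pos
  have h2 : ord (n + 1) * Real.log (ord (n + 1)) - ord n * Real.log (ord n) ≤
      2 * Real.pi * a := by
    have h3 : (ord (n + 1) * Real.log (ord (n + 1)) - ord n * Real.log (ord n)) /
        (2 * Real.pi) ≤ a := by
      refine le_trans (le_of_eq ?_) h
      field_simp
    rw [div_le_iff₀ (by positivity)] at h3
    linarith
  nlinarith

lemma K_eq (a : ℝ) : W249.TCF.KK a = K a := rfl

lemma bounds (RH : RiemannHypothesis) (a : ℝ) (ha : 0 ≤ a)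
    (hx : 0 < 53 / 60 - 79 / 600 * Real.pi ^ 2 * a ^ 2) (hD : 1 / 8 ≤ D a) (ε : ℝ) (hε : 0 < ε) :
    ∀ᶠ N : ℕ in atTop,
      ({n : ℕ | 1 ≤ n ∧ n ≤ N ∧ gap n ≤ a}.ncard : ℝ) ≤ (K a / 2 + ε) * N ∧
      ({n : ℕ | 2 ≤ n ∧ n ≤ N ∧ (gap (n - 1) ≤ a ∨ gap n ≤ a)}.ncard : ℝ) ≤ (K a + ε) * N := by
  classical
  filter_upwards [W249.TCF.small_gaps RH a ha hx hD ε hε] with N hN
  obtain ⟨h1, h2⟩ := hN
  constructor
  · refine le_trans ?_ h1
    rw [← Set.ncard_coe_finset]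
    have : {n : ℕ | 1 ≤ n ∧ n ≤ N ∧ gap n ≤ a} ⊆
        (((Finset.Icc 1 N).filter (fun n => W249.TCF.Pn a n) : Finset ℕ) : Set ℕ) := by
      rintro n ⟨a1, a2, a3⟩
      rw [Finset.mem_coe, Finset.mem_filter, Finset.mem_Icc]
      exact ⟨⟨a1, a2⟩, gap_imp a1 a3⟩
    exact_mod_cast Set.ncard_le_ncard this (Finset.finite_toSet _)
  · refine le_trans ?_ h2
    rw [← Set.ncard_coe_finset]
    have : {n : ℕ | 2 ≤ n ∧ n ≤ N ∧ (gap (n - 1) ≤ a ∨ gap n ≤ a)} ⊆
        (((Finset.Icc 2 N).filter (fun n => W249.TCF.Pn a (n - 1) ∨ W249.TCF.Pn a n) :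
          Finset ℕ) : Set ℕ) := by
      rintro n ⟨a1, a2, a3⟩
      rw [Finset.mem_coe, Finset.mem_filter, Finset.mem_Icc]
      refine ⟨⟨a1, a2⟩, ?_⟩
      rcases a3 with a3 | a3
      · exact Or.inl (gap_imp (by omega) a3)
      · exact Or.inr (gap_imp (by omega) a3)
    exact_mod_cast Set.ncard_le_ncard this (Finset.finite_toSet _)

/-- numerical form -/
lemma numeric (RH : RiemannHypothesis) (a κ : ℝ) (ha : 0 ≤ a)
    (hx : 0 < 53 / 60 - 79 / 600 * Real.pi ^ 2 * a ^ 2) (hD : 1 / 8 ≤ D a) (hK : K a < κ) :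
    ∀ᶠ N : ℕ in atTop,
      ({n : ℕ | 1 ≤ n ∧ n ≤ N ∧ gap n ≤ a}.ncard : ℝ) ≤ κ / 2 * N ∧
      (1 - κ) * N ≤ ({n : ℕ | 2 ≤ n ∧ n ≤ N ∧ a < gap (n - 1) ∧ a < gap n}.ncard : ℝ) := by
  have hε : 0 < (κ - K a) / 2 := by linarith
  have h3 : ∀ᶠ N : ℕ in atTop, 2 / (κ - K a) ≤ (N : ℝ) :=
    tendsto_natCast_atTop_atTop.eventually_ge_atTop _
  filter_upwards [bounds RH a ha hx hD _ hε, h3, eventually_ge_atTop 2] with N hN hN2 hN3
  obtain ⟨h1, h2⟩ := hN
  have hN0 : (0 : ℝ) ≤ N := Nat.cast_nonneg N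
  constructor
  · refine h1.trans ?_
    have : K a / 2 + (κ - K a) / 2 = κ / 2 := by ring
    rw [this]
  · have hcard : ({n : ℕ | 2 ≤ n ∧ n ≤ N ∧ a < gap (n - 1) ∧ a < gap n}.ncard : ℝ) +
        ({n : ℕ | 2 ≤ n ∧ n ≤ N ∧ (gap (n - 1) ≤ a ∨ gap n ≤ a)}.ncard : ℝ) = (N : ℝ) - 1 := by
      have hfin : (Set.Icc 2 N).Finite := Set.finite_Icc 2 N
      have e1 : {n : ℕ | 2 ≤ n ∧ n ≤ N ∧ a < gap (n - 1) ∧ a < gap n} ∪
          {n : ℕ | 2 ≤ n ∧ n ≤ N ∧ (gap (n - 1) ≤ a ∨ gap n ≤ a)} = Set.Icc 2 N := by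
        ext n
        simp only [Set.mem_union, Set.mem_ofPred_eq, Set.mem_Icc]
        constructor
        · rintro (⟨b1, b2, -⟩ | ⟨b1, b2, -⟩) <;> exact ⟨b1, b2⟩
        · rintro ⟨b1, b2⟩
          by_cases hc : gap (n - 1) ≤ a ∨ gap n ≤ a
          · exact Or.inr ⟨b1, b2, hc⟩
          · rw [not_or, not_le, not_le] at hc
            exact Or.inl ⟨b1, b2, hc⟩
      have e2 : Disjoint {n : ℕ | 2 ≤ n ∧ n ≤ N ∧ a < gap (n - 1) ∧ a < gap n}
          {n : ℕ | 2 ≤ n ∧ n ≤ N ∧ (gap (n - 1) ≤ a ∨ gap n ≤ a)} := by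
        rw [Set.disjoint_left]
        rintro n ⟨_, _, b3, b4⟩ ⟨_, _, b5 | b5⟩ <;> linarith
      have e3 := Set.ncard_union_eq e2 (hfin.subset (by rw [← e1]; exact Set.subset_union_left))
        (hfin.subset (by rw [← e1]; exact Set.subset_union_right))
      rw [e1] at e3
      have e4 : (Set.Icc 2 N).ncard = N - 1 := by
        rw [← Finset.coe_Icc, Set.ncard_coe_finset, Nat.card_Icc]
        omega
      rw [e4] at e3
      have e5 : ((N - 1 : ℕ) : ℝ) = (N : ℝ) - 1 := by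
        rw [Nat.cast_sub (by omega)]; norm_num
      rw [← e5, e3]
      push_cast
      ring
    have h4 : 1 ≤ (κ - K a) / 2 * N := by
      have h5 : 0 < κ - K a := by linarith
      rw [div_le_iff₀ h5] at hN2
      linarith
    nlinarith

/-- On the Riemann hypothesis: (1) for `a ≥ 0` with `53/60 > (79/600) π² a²` and `D a ≥ 1/8` the
proportion of normalised gaps that are at most `a` has upper limit at most `K a / 2`, and the
proportion of the zeros having one of their two normalised gaps at most `a` has upper limit at most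
`K a`; (2) for large `N` at most `15.3%` of the normalised gaps are `≤ 1/200`, and at least `69.4%`
of the zeros have both normalised gaps `> 1/200`; (3) for large `N` at most `17.3%` of the gaps are
`≤ 1/10`, and at least `65.4%` of the zeros have both normalised gaps `> 1/10`. -/
theorem result (RH : RiemannHypothesis) :
    (∀ a : ℝ, 0 ≤ a → 0 < 53 / 60 - 79 / 600 * Real.pi ^ 2 * a ^ 2 → 1 / 8 ≤ D a →
      ∀ ε : ℝ, 0 < ε → ∀ᶠ N : ℕ in atTop,
        ({n : ℕ | 1 ≤ n ∧ n ≤ N ∧ gap n ≤ a}.ncard : ℝ) ≤ (K a / 2 + ε) * N ∧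
        ({n : ℕ | 2 ≤ n ∧ n ≤ N ∧ (gap (n - 1) ≤ a ∨ gap n ≤ a)}.ncard : ℝ) ≤
          (K a + ε) * N) ∧
    (∀ᶠ N : ℕ in atTop,
      ({n : ℕ | 1 ≤ n ∧ n ≤ N ∧ gap n ≤ 1 / 200}.ncard : ℝ) ≤ 153 / 1000 * N ∧
      694 / 1000 * N ≤
        ({n : ℕ | 2 ≤ n ∧ n ≤ N ∧ 1 / 200 < gap (n - 1) ∧ 1 / 200 < gap n}.ncard : ℝ)) ∧
    (∀ᶠ N : ℕ in atTop,
      ({n : ℕ | 1 ≤ n ∧ n ≤ N ∧ gap n ≤ 1 / 10}.ncard : ℝ) ≤ 173 / 1000 * N ∧
      654 / 1000 * N ≤
        ({n : ℕ | 2 ≤ n ∧ n ≤ N ∧ 1 / 10 < gap (n - 1) ∧ 1 / 10 < gap n}.ncard : ℝ)) := by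
  have hp1 : 9 < Real.pi ^ 2 := by nlinarith [Real.pi_gt_three]
  have hp2 : Real.pi ^ 2 < 9.87 := by nlinarith [Real.pi_lt_d4, Real.pi_gt_three]
  refine ⟨fun a ha hx hD ε hε => bounds RH a ha hx hD ε hε, ?_, ?_⟩
  · have hu1 : 0.883300 ≤ 53 / 60 - 79 / 600 * Real.pi ^ 2 * (1 / 200 : ℝ) ^ 2 := by linarith
    have hG : 0.78022 ≤ G (1 / 200) := by unfold G; nlinarith
    have hDD : 0.52344 ≤ D (1 / 200) := by unfold D; linarith
    have hK : K (1 / 200) < 306 / 1000 := by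
      unfold K
      rw [div_lt_iff₀ (by positivity)]
      nlinarith
    have h := numeric RH (1 / 200) (306 / 1000) (by norm_num) (by linarith) (by linarith) hK
    filter_upwards [h] with N hN
    refine ⟨hN.1.trans (le_of_eq (by ring)), le_trans (le_of_eq (by ring)) hN.2⟩
  · have hu1 : 0.870337 ≤ 53 / 60 - 79 / 600 * Real.pi ^ 2 * (1 / 10 : ℝ) ^ 2 := by linarith
    have hG : 0.757486 ≤ G (1 / 10) := by unfold G; nlinarith
    have hDD : 0.47797 ≤ D (1 / 10) := by unfold D; linarith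
    have hK : K (1 / 10) < 346 / 1000 := by
      unfold K
      rw [div_lt_iff₀ (by positivity)]
      nlinarith
    have h := numeric RH (1 / 10) (346 / 1000) (by norm_num) (by linarith) (by linarith) hK
    filter_upwards [h] with N hN
    refine ⟨hN.1.trans (le_of_eq (by ring)), le_trans (le_of_eq (by ring)) hN.2⟩

end Pool.Agent.Results.MP_21f43f_nt.SmallGapProportion
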